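import Pool.Agent.Run7.h471.Homog

set_option autoImplicit false

/-!
# Restrictions of the shift graph: reduction to path spaces of relations on the natural numbers

For every Borel set `B` of infinite sets of natural numbers which is invariant under `E0` there is
a relation `D` on the natural numbers, contained in the usual strict order, such that, with
`Path D` the `F_sigma` set of all `x` with `D (x i) (x (i + 1))` for all but finitely many `i`,
the shift graphs on `B` and on `Path D` admit Borel homomorphisms into each other. Consequently
one has a projective finite colouring iff the other has, and the shift graph admits a Borel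
homomorphism into its restriction to `B` iff there is a continuous `g` with
`D (g x) (g (shift x))` for all `x`.
-/

namespace Pool.Agent.Results.MP_ae662e_lc.DigraphNormalForm

open Run7.h471

theorem result (B : Set Inc) (hB : Invariant B) (hBm : MeasurableSet B) :
    ∃ D : ℕ → ℕ → Prop, (∀ a b, D a b → a < b) ∧
      BorelHom B (Path D) ∧ BorelHom (Path D) B ∧
      (ProjColorable B ↔ ProjColorable (Path D)) ∧
      (BorelHom Set.univ B ↔ ∃ g : Inc → ℕ, Continuous g ∧ ∀ x, D (g x) (g (shift x))) := by
  obtain ⟨D, hD, h1, h2⟩ := reduction hB hBm
  refine ⟨D, hD, h1, h2, ⟨fun h => ?_, fun h => ?_⟩, ?_⟩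
  · exact ProjColorable.of_hom (measurableSet_path D) h2 h
  · exact ProjColorable.of_hom hBm h1 h
  · rw [← hom_iff hD]
    exact ⟨fun h => h.trans h1, fun h => h.trans h2⟩

end Pool.Agent.Results.MP_ae662e_lc.DigraphNormalForm
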