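import Pool.Agent.Run7.h471.Char

set_option autoImplicit false

/-!
# Ultrafilters of countable rank and Borel homomorphisms of the shift graph

An ultrafilter `U` on the space of infinite sets of natural numbers is shift invariant for a
sigma-algebra `m` if the preimage under the shift of each member of `U` lying in `m` is in `U`.
For such `U` the `m`-measurable natural valued functions are ranked by the relation
`g (S x) < f x` for `U`-almost all `x`, the functions bounded on a set of `U` being discarded
(`Rk`). For an `E0`-invariant Borel set `B` the shift graph admits a Borel homomorphism into its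
restriction to `B` iff `B` belongs to a shift invariant ultrafilter for which all Borel functions
have countable ranks. Here one may take the ranks with respect to the Borel functions only, or with
respect to any larger sigma-algebra.
-/

namespace Pool.Agent.Results.MP_ae662e_lc.RankCharacterization

open Run7.h471 MeasureTheory

theorem result (B : Set Inc) (hB : Invariant B) (hBm : MeasurableSet[borel Inc] B) :
    List.TFAE [
      BorelHom Set.univ B,
      ∃ U : Ultrafilter Inc, B ∈ U ∧
        (∀ A : Set Inc, MeasurableSet[borel Inc] A → A ∈ U → shift ⁻¹' A ∈ U) ∧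
        ∀ f : Inc → ℕ, Measurable[borel Inc] f →
          ∃ β : Ordinal.{0}, (Set.Iio β).Countable ∧ Rk (borel Inc) shift U β f,
      ∃ (m : MeasurableSpace Inc) (U : Ultrafilter Inc), borel Inc ≤ m ∧
        Measurable[m, m] shift ∧ B ∈ U ∧
        (∀ A : Set Inc, MeasurableSet[m] A → A ∈ U → shift ⁻¹' A ∈ U) ∧
        ∀ f : Inc → ℕ, Measurable[borel Inc] f →
          ∃ β : Ordinal.{0}, (Set.Iio β).Countable ∧ Rk m shift U β f] := by
  have hb : (Subtype.instMeasurableSpace : MeasurableSpace Inc) = borel Inc :=
    BorelSpace.measurable_eq
  tfae_have 1 → 2 := by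
    intro h
    rw [← hb]
    exact ultrafilter_of_hom h
  tfae_have 2 → 3 := by
    rintro ⟨U, h1, h2, h3⟩
    refine ⟨borel Inc, U, le_rfl, ?_, h1, h2, h3⟩
    rw [← hb]
    exact measurable_shift
  tfae_have 3 → 1 := by
    rintro ⟨m, U, hm, hS, h1, h2, h3⟩
    exact hom_of_ultrafilter hB hBm hm hS h1 h2 h3
  tfae_finish

end Pool.Agent.Results.MP_ae662e_lc.RankCharacterization
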